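import Pool.Agent.Helper321.TH.Red

set_option autoImplicit false

open MeasureTheory Filter Topology

namespace Pool.Agent.Helper321.TH

def cell (m i j : ℕ) : Set (ℝ × ℝ) :=
  Set.Ico ((i:ℝ) / 2 ^ m) (((i + 1 : ℕ):ℝ) / 2 ^ m) ×ˢ
    Set.Ico ((j:ℝ) / 2 ^ m) (((j + 1 : ℕ):ℝ) / 2 ^ m)

noncomputable def av (f : ℝ × ℝ → ℝ) (m i j : ℕ) : ℝ := 4 ^ m * ∫ p in cell m i j, f p

theorem meas_cell (m i j : ℕ) : MeasurableSet (cell m i j) :=
  measurableSet_Ico.prod measurableSet_Ico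

theorem len_cell (m i : ℕ) : ((i + 1 : ℕ):ℝ) / 2 ^ m - (i:ℝ) / 2 ^ m = (1 / 2 : ℝ) ^ m := by
  push_cast
  rw [one_div, inv_pow, ← sub_div, add_sub_cancel_left, one_div]

theorem vol_cell (m i j : ℕ) : volume (cell m i j) = ENNReal.ofReal ((1 / 4 : ℝ) ^ m) := by
  unfold cell
  rw [Measure.volume_eq_prod, Measure.prod_prod, Real.volume_Ico, Real.volume_Ico, len_cell,
    len_cell, ← ENNReal.ofReal_mul (by positivity), ← mul_pow]
  norm_num

theorem volr_cell (m i j : ℕ) : volume.real (cell m i j) = (1 / 4 : ℝ) ^ m := by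
  rw [Measure.real, vol_cell, ENNReal.toReal_ofReal (by positivity)]

theorem fin_cell (m i j : ℕ) : volume (cell m i j) < ⊤ := by
  rw [vol_cell]; exact ENNReal.ofReal_lt_top

theorem av_bound {f : ℝ × ℝ → ℝ} {B : ℝ} (hB : ∀ p, |f p| ≤ B) (m i j : ℕ) :
    |av f m i j| ≤ B := by
  unfold av
  have h := norm_setIntegral_le_of_norm_le_const (fin_cell m i j) (fun p _ => hB p) (f := f)
  rw [volr_cell, Real.norm_eq_abs] at h
  rw [abs_mul, abs_of_pos (by positivity : (0:ℝ) < 4 ^ m)]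
  calc (4:ℝ) ^ m * |∫ p in cell m i j, f p| ≤ 4 ^ m * (B * (1 / 4) ^ m) := by gcongr
    _ = B * ((4 * (1 / 4)) ^ m) := by rw [mul_pow]; ring
    _ = B := by norm_num

theorem jensen {f : ℝ × ℝ → ℝ} {B : ℝ} (mf : Measurable f) (hB : ∀ p, |f p| ≤ B) (m i j : ℕ) :
    |av f m i j| ^ 3 ≤ 4 ^ m * ∫ p in cell m i j, |f p| ^ 3 := by
  set A := |av f m i j| with hA
  have B0 : 0 ≤ B := (abs_nonneg _).trans (hB (0, 0))
  have A0 : 0 ≤ A := abs_nonneg _
  have i1 : IntegrableOn (fun p => |f p|) (cell m i j) := by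
    refine Measure.integrableOn_of_bounded (M := B) (fin_cell m i j).ne
      mf.abs.aestronglyMeasurable (ae_of_all _ fun p => ?_)
    rw [Real.norm_eq_abs, abs_abs]; exact hB p
  have i3 : IntegrableOn (fun p => |f p| ^ 3) (cell m i j) := by
    refine Measure.integrableOn_of_bounded (M := B ^ 3) (fin_cell m i j).ne
      (mf.abs.pow_const 3).aestronglyMeasurable (ae_of_all _ fun p => ?_)
    rw [Real.norm_eq_abs, abs_of_nonneg (by positivity)]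
    exact pow_le_pow_left₀ (abs_nonneg _) (hB p) 3
  have h1 : |∫ p in cell m i j, f p| ≤ ∫ p in cell m i j, |f p| := abs_integral_le_integral_abs
  have h2 : A * (1 / 4) ^ m ≤ ∫ p in cell m i j, |f p| := by
    refine le_trans (le_of_eq ?_) h1
    rw [hA]
    unfold av
    rw [abs_mul, abs_of_pos (by positivity : (0:ℝ) < 4 ^ m)]
    have : (4:ℝ) ^ m * (1 / 4) ^ m = 1 := by rw [← mul_pow]; norm_num
    linear_combination |∫ p in cell m i j, f p| * this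
  have h3 : ∫ p in cell m i j, (A ^ 3 + 3 * A ^ 2 * (|f p| - A)) ≤
      ∫ p in cell m i j, |f p| ^ 3 := by
    refine setIntegral_mono ?_ i3 ?_
    · exact (integrableOn_const (fin_cell m i j).ne).add
        ((i1.sub (integrableOn_const (fin_cell m i j).ne)).const_mul _)
    · intro p
      have h0 : 0 ≤ |f p| := abs_nonneg _
      show A ^ 3 + 3 * A ^ 2 * (|f p| - A) ≤ |f p| ^ 3
      nlinarith [mul_nonneg (sq_nonneg (|f p| - A)) (by linarith : 0 ≤ |f p| + 2 * A)]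
  have h4 : ∫ p in cell m i j, (A ^ 3 + 3 * A ^ 2 * (|f p| - A)) =
      A ^ 3 * (1 / 4) ^ m + 3 * A ^ 2 * ((∫ p in cell m i j, |f p|) - A * (1 / 4) ^ m) := by
    have ic : ∀ c : ℝ, Integrable (fun _ : ℝ × ℝ => c) (volume.restrict (cell m i j)) :=
      fun c => integrableOn_const (fin_cell m i j).ne
    have i2 : Integrable (fun p => 3 * A ^ 2 * (|f p| - A)) (volume.restrict (cell m i j)) :=
      (i1.sub (ic A)).const_mul _
    rw [integral_add (ic _) i2, integral_const_mul, integral_sub i1 (ic _), setIntegral_const,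
      setIntegral_const, volr_cell, smul_eq_mul, smul_eq_mul]
    ring
  rw [h4] at h3
  have h5 : A ^ 3 * (1 / 4) ^ m ≤ ∫ p in cell m i j, |f p| ^ 3 := by
    have : 0 ≤ 3 * A ^ 2 * ((∫ p in cell m i j, |f p|) - A * (1 / 4) ^ m) :=
      mul_nonneg (by positivity) (by linarith)
    linarith
  have h6 : (4:ℝ) ^ m * (1 / 4) ^ m = 1 := by rw [← mul_pow]; norm_num
  calc A ^ 3 = 4 ^ m * (A ^ 3 * (1 / 4) ^ m) := by linear_combination (-A ^ 3) * h6
    _ ≤ _ := by gcongr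

theorem cell_disj (m : ℕ) {q q' : ℕ × ℕ} (h : q ≠ q') :
    Disjoint (cell m q.1 q.2) (cell m q'.1 q'.2) := by
  rw [Set.disjoint_left]
  intro p hp hp'
  apply h
  unfold cell at hp hp'
  rw [Set.mem_prod] at hp hp'
  have key : ∀ (x : ℝ) (i i' : ℕ), x ∈ Set.Ico ((i:ℝ) / 2 ^ m) (((i + 1 : ℕ):ℝ) / 2 ^ m) →
      x ∈ Set.Ico ((i':ℝ) / 2 ^ m) (((i' + 1 : ℕ):ℝ) / 2 ^ m) → i = i' := by
    intro x i i' h1 h2
    have hx : 0 ≤ x := le_trans (by positivity) h1.1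
    rw [ico_iff hx] at h1 h2
    omega
  exact Prod.ext (key _ _ _ hp.1 hp'.1) (key _ _ _ hp.2 hp'.2)

theorem a3_le {f : ℝ × ℝ → ℝ} {B : ℝ} (mf : Measurable f) (hB : ∀ p, |f p| ≤ B)
    (hi : Integrable (fun p => |f p| ^ 3)) (L m : ℕ) :
    a3 (L + m) (av f m) ≤ (1 / 4 : ℝ) ^ L * ∫ p, |f p| ^ 3 := by
  unfold a3
  have h1 : ∑ i ∈ Finset.range (2 ^ (L + m)), ∑ j ∈ Finset.range (2 ^ (L + m)),
      |av f m i j| ^ 3 ≤ 4 ^ m * ∫ p, |f p| ^ 3 := by
    calc ∑ i ∈ Finset.range (2 ^ (L + m)), ∑ j ∈ Finset.range (2 ^ (L + m)), |av f m i j| ^ 3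
        ≤ ∑ i ∈ Finset.range (2 ^ (L + m)), ∑ j ∈ Finset.range (2 ^ (L + m)),
          4 ^ m * ∫ p in cell m i j, |f p| ^ 3 :=
          Finset.sum_le_sum fun i _ => Finset.sum_le_sum fun j _ => jensen mf hB m i j
      _ = 4 ^ m * ∑ q ∈ Finset.range (2 ^ (L + m)) ×ˢ Finset.range (2 ^ (L + m)),
          ∫ p in cell m q.1 q.2, |f p| ^ 3 := by
          rw [Finset.sum_product, Finset.mul_sum]
          refine Finset.sum_congr rfl fun i _ => ?_
          rw [Finset.mul_sum]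
      _ = 4 ^ m * ∫ p in ⋃ q ∈ Finset.range (2 ^ (L + m)) ×ˢ Finset.range (2 ^ (L + m)),
          cell m q.1 q.2, |f p| ^ 3 := by
          rw [integral_biUnion_finset]
          · intro q _; exact meas_cell _ _ _
          · intro q _ q' _ hq
            exact cell_disj m hq
          · intro q _; exact hi.integrableOn
      _ ≤ 4 ^ m * ∫ p, |f p| ^ 3 := by
          refine mul_le_mul_of_nonneg_left ?_ (by positivity)
          exact setIntegral_le_integral hi (ae_of_all _ fun p => by positivity)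
  calc (1 / 4 : ℝ) ^ (L + m) * _ ≤ (1 / 4 : ℝ) ^ (L + m) * (4 ^ m * ∫ p, |f p| ^ 3) := by gcongr
    _ = (1 / 4 : ℝ) ^ L * (((1 / 4) * 4) ^ m) * ∫ p, |f p| ^ 3 := by
        rw [pow_add, mul_pow]; ring
    _ = _ := by norm_num

theorem av_tendsto {f : ℝ × ℝ → ℝ} (hf : LocallyIntegrable f volume) :
    ∀ᵐ p : ℝ × ℝ, 0 ≤ p.1 → 0 ≤ p.2 →
      Tendsto (fun m => stp m (av f m) p) atTop (𝓝 (f p)) := by
  filter_upwards [IsUnifLocDoublingMeasure.ae_tendsto_average volume hf 1] with p hp h1 h2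
  have hpos : ∀ m : ℕ, (0:ℝ) < 2 ^ m := fun m => by positivity
  have key := hp (l := atTop) (fun m : ℕ => (((⌊(2:ℝ) ^ m * p.1⌋₊ : ℝ) + 1 / 2) / 2 ^ m,
    ((⌊(2:ℝ) ^ m * p.2⌋₊ : ℝ) + 1 / 2) / 2 ^ m)) (fun m : ℕ => (1 / 2 : ℝ) * (1 / 2) ^ m) ?_ ?_
  · refine key.congr fun m => ?_
    rw [← closedBall_prod_same, Real.closedBall_eq_Icc, Real.closedBall_eq_Icc, setAverage_eq]
    have e1 : ∀ t : ℕ, ((t:ℝ) + 1 / 2) / 2 ^ m - 1 / 2 * (1 / 2) ^ m = (t:ℝ) / 2 ^ m := by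
      intro t
      rw [one_div_pow]; field_simp; ring
    have e2 : ∀ t : ℕ, ((t:ℝ) + 1 / 2) / 2 ^ m + 1 / 2 * (1 / 2) ^ m =
        ((t + 1 : ℕ):ℝ) / 2 ^ m := by
      intro t
      push_cast
      rw [one_div_pow]; field_simp; ring
    rw [e1, e1, e2, e2]
    have e3 : (Set.Icc ((⌊(2:ℝ) ^ m * p.1⌋₊:ℝ) / 2 ^ m) (((⌊(2:ℝ) ^ m * p.1⌋₊ + 1 : ℕ):ℝ) / 2 ^ m)
      ×ˢ Set.Icc ((⌊(2:ℝ) ^ m * p.2⌋₊:ℝ) / 2 ^ m) (((⌊(2:ℝ) ^ m * p.2⌋₊ + 1 : ℕ):ℝ) / 2 ^ m) :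
        Set (ℝ × ℝ)) =ᵐ[volume] cell m ⌊(2:ℝ) ^ m * p.1⌋₊ ⌊(2:ℝ) ^ m * p.2⌋₊ :=
      Measure.set_prod_ae_eq Ico_ae_eq_Icc.symm Ico_ae_eq_Icc.symm
    rw [setIntegral_congr_set e3, measureReal_congr e3, volr_cell, smul_eq_mul]
    unfold stp av
    rw [one_div, inv_pow, inv_inv]
  · rw [tendsto_nhdsWithin_iff]
    refine ⟨?_, Eventually.of_forall fun m => ?_⟩
    · have := (tendsto_pow_atTop_nhds_zero_of_lt_one (by norm_num : (0:ℝ) ≤ 1 / 2)
        (by norm_num)).const_mul (1 / 2)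
      rwa [mul_zero] at this
    · rw [Set.mem_Ioi]; positivity
  · refine Eventually.of_forall fun m => ?_
    have hc : ∀ x : ℝ, 0 ≤ x → x ∈ Metric.closedBall (((⌊(2:ℝ) ^ m * x⌋₊ : ℝ) + 1 / 2) / 2 ^ m)
        (1 * (1 / 2 * (1 / 2) ^ m)) := by
      intro x hx
      rw [Real.closedBall_eq_Icc, Set.mem_Icc]
      have g1 := Nat.floor_le (by positivity : 0 ≤ (2:ℝ) ^ m * x)
      have g2 := Nat.lt_floor_add_one ((2:ℝ) ^ m * x)
      have e : (1:ℝ) * (1 / 2 * (1 / 2) ^ m) = (1 / 2) / 2 ^ m := by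
        rw [one_div_pow]; ring
      rw [e, ← sub_div, ← add_div]
      constructor
      · rw [div_le_iff₀ (hpos m)]; linarith
      · rw [le_div_iff₀ (hpos m)]; linarith
    rw [← closedBall_prod_same]
    exact Set.mem_prod.2 ⟨hc _ h1, hc _ h2⟩

end Pool.Agent.Helper321.TH
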