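import Pool.Agent.Helper321.TH.Red

set_option autoImplicit false

open MeasureTheory Filter Topology

namespace Pool.Agent.Helper321.TH

theorem meas_hh (k : ℤ) (a : ℕ) : Measurable (hh k a) := by
  unfold hh
  exact (measurable_const.indicator measurableSet_Ico).sub
    (measurable_const.indicator measurableSet_Ico)

theorem int_hh' (k : ℤ) (a : ℕ) : Integrable (hh k a) := by
  unfold hh
  refine Integrable.sub ?_ ?_
  · refine (integrable_indicator_iff measurableSet_Ico).2 ?_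
    exact integrableOn_const (by rw [Real.volume_Ico]; exact ENNReal.ofReal_ne_top)
  · refine (integrable_indicator_iff measurableSet_Ico).2 ?_
    exact integrableOn_const (by rw [Real.volume_Ico]; exact ENNReal.ofReal_ne_top)

theorem hh_neg (k : ℤ) (a : ℕ) {x : ℝ} (hx : x < 0) : hh k a x = 0 := by
  unfold hh
  have h1 : (0:ℝ) ≤ (2:ℝ) ^ k * (a : ℝ) := by positivity
  have h2 : (0:ℝ) ≤ (2:ℝ) ^ (k - 1) := by positivity
  rw [Set.indicator_of_notMem, Set.indicator_of_notMem]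
  · ring
  · intro h; linarith [h.1]
  · intro h; linarith [h.1]

theorem T_tendsto {k : ℤ} {a b c : ℕ} {f g h : ℝ × ℝ → ℝ} {fm gm hm : ℕ → ℝ × ℝ → ℝ} {B : ℝ}
    (mf : ∀ m, Measurable (fm m)) (mg : ∀ m, Measurable (gm m)) (mh : ∀ m, Measurable (hm m))
    (bf : ∀ m p, |fm m p| ≤ B) (bg : ∀ m p, |gm m p| ≤ B) (bh : ∀ m p, |hm m p| ≤ B)
    (cf : ∀ᵐ p : ℝ × ℝ, 0 ≤ p.1 → 0 ≤ p.2 → Tendsto (fun m => fm m p) atTop (𝓝 (f p)))
    (cg : ∀ᵐ p : ℝ × ℝ, 0 ≤ p.1 → 0 ≤ p.2 → Tendsto (fun m => gm m p) atTop (𝓝 (g p)))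
    (ch : ∀ᵐ p : ℝ × ℝ, 0 ≤ p.1 → 0 ≤ p.2 → Tendsto (fun m => hm m p) atTop (𝓝 (h p))) :
    Tendsto (fun m => T k a b c (fm m) (gm m) (hm m)) atTop (𝓝 (T k a b c f g h)) := by
  have ha := meas_hh k a
  have hb := meas_hh k b
  have hc := meas_hh k c
  have cf' : ∀ᵐ x : ℝ, ∀ᵐ y : ℝ, 0 ≤ x → 0 ≤ y →
      Tendsto (fun m => fm m (x, y)) atTop (𝓝 (f (x, y))) := Measure.ae_ae_of_ae_prod cf
  have cg' : ∀ᵐ x : ℝ, ∀ᵐ y : ℝ, 0 ≤ x → 0 ≤ y →
      Tendsto (fun m => gm m (x, y)) atTop (𝓝 (g (x, y))) := Measure.ae_ae_of_ae_prod cg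
  have ch0 : ∀ᵐ p : ℝ × ℝ, 0 ≤ p.2 → 0 ≤ p.1 →
      Tendsto (fun m => hm m (p.2, p.1)) atTop (𝓝 (h (p.2, p.1))) :=
    (Measure.measurePreserving_swap (μ := (volume : Measure ℝ))
      (ν := (volume : Measure ℝ))).quasiMeasurePreserving.ae ch
  have ch' : ∀ᵐ x : ℝ, ∀ᵐ z : ℝ, 0 ≤ z → 0 ≤ x →
      Tendsto (fun m => hm m (z, x)) atTop (𝓝 (h (z, x))) := Measure.ae_ae_of_ae_prod ch0
  set Fm : ℕ → (ℝ × ℝ) × ℝ → ℝ := fun m p => fm m (p.1.1, p.1.2) * gm m (p.1.2, p.2) *
    hm m (p.2, p.1.1) * hh k a p.1.1 * hh k b p.1.2 * hh k c p.2 with hFm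
  have mF : ∀ m, Measurable (Fm m) := by
    intro m
    have h1 := mf m
    have h2 := mg m
    have h3 := mh m
    rw [hFm]
    fun_prop
  have sF1 : ∀ m, StronglyMeasurable (fun p : ℝ × ℝ => ∫ z, Fm m (p, z)) := fun m =>
    (mF m).stronglyMeasurable.integral_prod_right
  have sF2 : ∀ m, StronglyMeasurable (fun x : ℝ => ∫ y, ∫ z, Fm m ((x, y), z)) := fun m =>
    (sF1 m).integral_prod_right
  have B0 : 0 ≤ B := (abs_nonneg _).trans (bf 0 (0, 0))
  have bF : ∀ m x y z, |Fm m ((x, y), z)| ≤ B ^ 3 * |hh k a x| * |hh k b y| * |hh k c z| := by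
    intro m x y z
    simp only [hFm, abs_mul]
    have e : |fm m (x, y)| * |gm m (y, z)| * |hm m (z, x)| ≤ B ^ 3 := by
      calc |fm m (x, y)| * |gm m (y, z)| * |hm m (z, x)| ≤ B * B * B := by
            gcongr
            · exact bf _ _
            · exact bg _ _
            · exact bh _ _
        _ = B ^ 3 := by ring
    gcongr
  have iA : Integrable (fun x => |hh k a x|) := (int_hh' k a).abs
  have iB : Integrable (fun x => |hh k b x|) := (int_hh' k b).abs
  have iC : Integrable (fun x => |hh k c x|) := (int_hh' k c).abs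
  have b1 : ∀ m x y, |∫ z, Fm m ((x, y), z)| ≤
      (B ^ 3 * |hh k a x| * ∫ z, |hh k c z|) * |hh k b y| := by
    intro m x y
    have h1 := norm_integral_le_of_norm_le (iC.const_mul (B ^ 3 * |hh k a x| * |hh k b y|))
      (Eventually.of_forall (fun z => bF m x y z)) (f := fun z => Fm m ((x, y), z))
    rw [integral_const_mul, Real.norm_eq_abs] at h1
    refine h1.trans (le_of_eq ?_)
    ring
  have b2 : ∀ m x, |∫ y, ∫ z, Fm m ((x, y), z)| ≤
      (B ^ 3 * (∫ z, |hh k c z|) * ∫ z, |hh k b z|) * |hh k a x| := by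
    intro m x
    have h1 := norm_integral_le_of_norm_le (iB.const_mul (B ^ 3 * |hh k a x| * ∫ z, |hh k c z|))
      (Eventually.of_forall (fun y => b1 m x y)) (f := fun y => ∫ z, Fm m ((x, y), z))
    rw [integral_const_mul, Real.norm_eq_abs] at h1
    refine h1.trans (le_of_eq ?_)
    ring
  unfold T
  refine tendsto_integral_of_dominated_convergence
    (fun x => (B ^ 3 * (∫ z, |hh k c z|) * ∫ z, |hh k b z|) * |hh k a x|)
    (fun m => (sF2 m).aestronglyMeasurable) (iA.const_mul _)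
    (fun m => Eventually.of_forall (fun x => b2 m x)) ?_
  filter_upwards [cf', ch'] with x hx1 hx2
  refine tendsto_integral_of_dominated_convergence
    (fun y => (B ^ 3 * |hh k a x| * ∫ z, |hh k c z|) * |hh k b y|)
    (fun m => ((sF1 m).comp_measurable (measurable_const.prodMk measurable_id)).aestronglyMeasurable)
    (iB.const_mul _)
    (fun m => Eventually.of_forall (fun y => b1 m x y)) ?_
  filter_upwards [hx1, cg'] with y hy1 hy2
  refine tendsto_integral_of_dominated_convergence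
    (fun z => (B ^ 3 * |hh k a x| * |hh k b y|) * |hh k c z|)
    (fun m => (show Measurable (fun z => Fm m ((x, y), z)) from
      (mF m).comp measurable_prodMk_left).aestronglyMeasurable)
    (iC.const_mul _)
    (fun m => Eventually.of_forall (fun z => bF m x y z)) ?_
  filter_upwards [hx2, hy2] with z hz1 hz2
  by_cases x0 : 0 ≤ x
  · by_cases y0 : 0 ≤ y
    · by_cases z0 : 0 ≤ z
      · exact (((((hy1 x0 y0).mul (hz2 y0 z0)).mul (hz1 z0 x0)).mul_const _).mul_const _).mul_const _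
      · simp only [hh_neg k c (not_le.1 z0), mul_zero]
        exact tendsto_const_nhds
    · simp only [hh_neg k b (not_le.1 y0), mul_zero, zero_mul]
      exact tendsto_const_nhds
  · simp only [hh_neg k a (not_le.1 x0), mul_zero, zero_mul]
    exact tendsto_const_nhds

end Pool.Agent.Helper321.TH
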