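import Pool.Agent.Helper321.TH.Dct
import Pool.Agent.Helper321.TH.Avg

set_option autoImplicit false

open MeasureTheory Filter Topology

namespace Pool.Agent.Helper321.TH

theorem hh_lt (k : ℤ) (a : ℕ) {x : ℝ} (hx : x < (2:ℝ) ^ k * (a : ℝ)) : hh k a x = 0 := by
  unfold hh
  have h2 : (0:ℝ) ≤ (2:ℝ) ^ (k - 1) := by positivity
  rw [Set.indicator_of_notMem, Set.indicator_of_notMem]
  · ring
  · intro h; linarith [h.1]
  · intro h; linarith [h.1]

theorem T_zero_a {k : ℤ} {a b c : ℕ} {f g h : ℝ × ℝ → ℝ} {R : ℝ}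
    (hf : ∀ x y, R ≤ x → f (x, y) = 0) (hR : R ≤ (2:ℝ) ^ k * (a : ℝ)) :
    T k a b c f g h = 0 := by
  unfold T
  have : ∀ x y z : ℝ, f (x, y) * g (y, z) * h (z, x) * hh k a x * hh k b y * hh k c z = 0 := by
    intro x y z
    by_cases hx : x < (2:ℝ) ^ k * (a : ℝ)
    · rw [hh_lt k a hx]; ring
    · rw [hf x y (hR.trans (not_lt.1 hx))]; ring
  simp only [this, integral_zero]

theorem T_zero_b {k : ℤ} {a b c : ℕ} {f g h : ℝ × ℝ → ℝ} {R : ℝ}
    (hf : ∀ x y, R ≤ y → f (x, y) = 0) (hR : R ≤ (2:ℝ) ^ k * (b : ℝ)) :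
    T k a b c f g h = 0 := by
  unfold T
  have : ∀ x y z : ℝ, f (x, y) * g (y, z) * h (z, x) * hh k a x * hh k b y * hh k c z = 0 := by
    intro x y z
    by_cases hx : y < (2:ℝ) ^ k * (b : ℝ)
    · rw [hh_lt k b hx]; ring
    · rw [hf x y (hR.trans (not_lt.1 hx))]; ring
  simp only [this, integral_zero]

theorem stp_meas (m : ℕ) (F : ℕ → ℕ → ℝ) : Measurable (stp m F) := by
  have h1 : Measurable (fun q : ℕ × ℕ => F q.1 q.2) := measurable_of_countable _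
  have h2 : Measurable (fun p : ℝ × ℝ => (⌊(2:ℝ) ^ m * p.1⌋₊, ⌊(2:ℝ) ^ m * p.2⌋₊)) :=
    (Nat.measurable_floor.comp (measurable_const.mul measurable_fst)).prodMk
      (Nat.measurable_floor.comp (measurable_const.mul measurable_snd))
  exact h1.comp h2

theorem step_id (L m s : ℕ) (hs : s < L + m) (F G H : ℕ → ℕ → ℝ) :
    (2:ℝ) ^ (-((L:ℤ) - s)) * ∑ p ∈ Finset.range (2 ^ s), ∑ q ∈ Finset.range (2 ^ s),
      T ((L:ℤ) - s) p q (p ^^^ q) (stp m F) (stp m G) (stp m H) =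
      4 ^ L * Lam (L + m) s F G H := by
  obtain ⟨t, ht⟩ : ∃ t, L + m = s + (t + 1) := ⟨L + m - s - 1, by omega⟩
  have hts : L + m - s = t + 1 := by omega
  have h0 : (2:ℝ) ≠ 0 := by norm_num
  have hk : (2:ℝ) ^ ((L:ℤ) - s) = 2 ^ L / 2 ^ s := by
    rw [zpow_sub₀ h0, zpow_natCast, zpow_natCast]
  have hM : ((2 ^ (t + 1) : ℕ) : ℝ) = 2 ^ m * (2:ℝ) ^ ((L:ℤ) - s) := by
    rw [hk, ← mul_div_assoc, eq_div_iff (by positivity)]
    push_cast
    rw [← pow_add, ← pow_add, add_comm m L, ht, add_comm s]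
  have hM2 : 2 ^ (t + 1) = 2 * (2 ^ (t + 1) / 2) := by
    rw [pow_succ, Nat.mul_div_cancel _ (by norm_num)]; ring
  have hT : ∀ p q : ℕ, T ((L:ℤ) - s) p q (p ^^^ q) (stp m F) (stp m G) (stp m H) = _ :=
    fun p q => T_step hM hM2 p q (p ^^^ q) F G H
  simp_rw [hT]
  unfold Lam
  rw [hts]
  simp_rw [← Finset.mul_sum]
  rw [← mul_assoc, ← mul_assoc]
  congr 1
  rw [zpow_neg, hk, inv_div, one_div_pow, one_div_pow, one_div_pow]
  have e8 : (8:ℝ) ^ L * 8 ^ m = 8 ^ s * 8 ^ (t + 1) := by rw [← pow_add, ← pow_add, ht]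
  have e1 : (8:ℝ) ^ L = 2 ^ L * 4 ^ L := by rw [← mul_pow]; norm_num
  have e2 : (8:ℝ) ^ s = 2 ^ s * 4 ^ s := by rw [← mul_pow]; norm_num
  rw [e1, e2] at e8
  have p1 : (0:ℝ) < 2 ^ L := by positivity
  have p2 : (0:ℝ) < 8 ^ m := by positivity
  have p3 : (0:ℝ) < 4 ^ s := by positivity
  have p4 : (0:ℝ) < 8 ^ (t + 1) := by positivity
  rw [mul_one_div, div_div, one_div_mul_one_div, mul_one_div,
    div_eq_div_iff (by positivity) (by positivity)]
  linear_combination -e8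

theorem bound3 {C : ℝ} (hC0 : 0 ≤ C)
    (hC : ∀ (n : ℕ) (f g h : ℕ → ℕ → ℝ),
      ∑ s ∈ Finset.range n, |Lam n s f g h| ≤ C * (a3 n f + a3 n g + a3 n h))
    (S : Finset ℤ) (ε : ℤ → ℝ) (hε : ∀ k, |ε k| ≤ 1) {f g h : ℝ × ℝ → ℝ} {B : ℝ}
    (mf : Measurable f) (mg : Measurable g) (mh : Measurable h)
    (bf : ∀ p, |f p| ≤ B) (bg : ∀ p, |g p| ≤ B) (bh : ∀ p, |h p| ≤ B)
    (lf : Integrable f) (lg : Integrable g) (lh : Integrable h)
    (f3 : Integrable (fun p => |f p| ^ 3)) (g3 : Integrable (fun p => |g p| ^ 3))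
    (h3 : Integrable (fun p => |h p| ^ 3))
    (L : ℕ) (hSL : ∀ k ∈ S, k ≤ L)
    (fx : ∀ x y, (2:ℝ) ^ L ≤ x → f (x, y) = 0) (fy : ∀ x y, (2:ℝ) ^ L ≤ y → f (x, y) = 0) :
    |∑ k ∈ S, (2:ℝ) ^ (-k) * ε k * ∑' ab : ℕ × ℕ, T k ab.1 ab.2 (ab.1 ^^^ ab.2) f g h| ≤
      C * ((∫ p, |f p| ^ 3) + (∫ p, |g p| ^ 3) + ∫ p, |h p| ^ 3) := by
  have h20 : (2:ℝ) ≠ 0 := by norm_num
  -- natural exponents
  have hsk : ∀ k ∈ S, k = (L:ℤ) - (((L:ℤ) - k).toNat : ℕ) := by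
    intro k hk
    have := hSL k hk
    omega
  have e1 : ∀ k ∈ S, ∑' ab : ℕ × ℕ, T k ab.1 ab.2 (ab.1 ^^^ ab.2) f g h =
      ∑ p ∈ Finset.range (2 ^ ((L:ℤ) - k).toNat), ∑ q ∈ Finset.range (2 ^ ((L:ℤ) - k).toNat),
        T k p q (p ^^^ q) f g h := by
    intro k hk
    rw [← Finset.sum_product']
    refine tsum_eq_sum (fun ab hab => ?_)
    rw [Finset.mem_product, Finset.mem_range, Finset.mem_range, not_and_or] at hab
    have e2 : (2:ℝ) ^ L = (2:ℝ) ^ k * ((2 ^ ((L:ℤ) - k).toNat : ℕ) : ℝ) := by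
      have := hSL k hk
      push_cast
      rw [← zpow_natCast, ← zpow_natCast, ← zpow_add₀ h20]
      congr 1
      omega
    have hp : (0:ℝ) < (2:ℝ) ^ k := by positivity
    rcases hab with hab | hab
    · refine T_zero_a fx ?_
      rw [e2]
      have : ((2 ^ ((L:ℤ) - k).toNat : ℕ) : ℝ) ≤ (ab.1 : ℝ) := by exact_mod_cast not_lt.1 hab
      gcongr
    · refine T_zero_b fy ?_
      rw [e2]
      have : ((2 ^ ((L:ℤ) - k).toNat : ℕ) : ℝ) ≤ (ab.2 : ℝ) := by exact_mod_cast not_lt.1 hab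
      gcongr
  have e3 : ∑ k ∈ S, (2:ℝ) ^ (-k) * ε k * ∑' ab : ℕ × ℕ, T k ab.1 ab.2 (ab.1 ^^^ ab.2) f g h =
      ∑ k ∈ S, (2:ℝ) ^ (-k) * ε k * ∑ p ∈ Finset.range (2 ^ ((L:ℤ) - k).toNat),
        ∑ q ∈ Finset.range (2 ^ ((L:ℤ) - k).toNat), T k p q (p ^^^ q) f g h :=
    Finset.sum_congr rfl fun k hk => by rw [e1 k hk]
  rw [e3]
  have hlim : Tendsto (fun m => |∑ k ∈ S, (2:ℝ) ^ (-k) * ε k *
      ∑ p ∈ Finset.range (2 ^ ((L:ℤ) - k).toNat),
        ∑ q ∈ Finset.range (2 ^ ((L:ℤ) - k).toNat), T k p q (p ^^^ q) (stp m (av f m))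
          (stp m (av g m)) (stp m (av h m))|) atTop (𝓝 |∑ k ∈ S, (2:ℝ) ^ (-k) * ε k *
      ∑ p ∈ Finset.range (2 ^ ((L:ℤ) - k).toNat),
        ∑ q ∈ Finset.range (2 ^ ((L:ℤ) - k).toNat), T k p q (p ^^^ q) f g h|) := by
    refine Tendsto.abs ?_
    refine tendsto_finsetSum _ fun k _ => Tendsto.const_mul _ ?_
    refine tendsto_finsetSum _ fun p _ => tendsto_finsetSum _ fun q _ => ?_
    exact T_tendsto (B := B) (fun m => stp_meas m _) (fun m => stp_meas m _)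
      (fun m => stp_meas m _) (fun m p => av_bound bf _ _ _) (fun m p => av_bound bg _ _ _)
      (fun m p => av_bound bh _ _ _) (av_tendsto lf.locallyIntegrable)
      (av_tendsto lg.locallyIntegrable) (av_tendsto lh.locallyIntegrable)
  refine le_of_tendsto hlim ?_
  filter_upwards [eventually_ge_atTop (∑ k ∈ S, k.natAbs + 1)] with m hm
  have hmk : ∀ k ∈ S, ((L:ℤ) - k).toNat < L + m := by
    intro k hk
    have h1 : k.natAbs ≤ ∑ k ∈ S, k.natAbs :=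
      Finset.single_le_sum (f := fun k : ℤ => k.natAbs) (fun _ _ => Nat.zero_le _) hk
    have := hSL k hk
    omega
  calc |∑ k ∈ S, (2:ℝ) ^ (-k) * ε k *
      ∑ p ∈ Finset.range (2 ^ ((L:ℤ) - k).toNat),
        ∑ q ∈ Finset.range (2 ^ ((L:ℤ) - k).toNat), T k p q (p ^^^ q) (stp m (av f m))
          (stp m (av g m)) (stp m (av h m))|
      ≤ ∑ k ∈ S, |(2:ℝ) ^ (-k) * ε k *
      ∑ p ∈ Finset.range (2 ^ ((L:ℤ) - k).toNat),
        ∑ q ∈ Finset.range (2 ^ ((L:ℤ) - k).toNat), T k p q (p ^^^ q) (stp m (av f m))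
          (stp m (av g m)) (stp m (av h m))| := Finset.abs_sum_le_sum_abs _ _
    _ ≤ ∑ k ∈ S, 4 ^ L * |Lam (L + m) (((L:ℤ) - k).toNat) (av f m) (av g m) (av h m)| := by
        refine Finset.sum_le_sum fun k hk => ?_
        have h1 := step_id L m (((L:ℤ) - k).toNat) (hmk k hk) (av f m) (av g m) (av h m)
        rw [← hsk k hk] at h1
        rw [mul_right_comm, h1, abs_mul, abs_mul, abs_of_pos (by positivity : (0:ℝ) < 4 ^ L)]
        exact mul_le_of_le_one_right (by positivity) (hε k)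
    _ = 4 ^ L * ∑ s ∈ S.image (fun k => ((L:ℤ) - k).toNat),
          |Lam (L + m) s (av f m) (av g m) (av h m)| := by
        rw [Finset.sum_image, Finset.mul_sum]
        intro k hk k' hk' hkk
        have h1 := hSL k hk
        have h2 := hSL k' hk'
        simp only at hkk
        omega
    _ ≤ 4 ^ L * ∑ s ∈ Finset.range (L + m), |Lam (L + m) s (av f m) (av g m) (av h m)| := by
        refine mul_le_mul_of_nonneg_left ?_ (by positivity)
        refine Finset.sum_le_sum_of_subset_of_nonneg ?_ (fun _ _ _ => abs_nonneg _)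
        intro s hs
        rw [Finset.mem_image] at hs
        obtain ⟨k, hk, rfl⟩ := hs
        exact Finset.mem_range.2 (hmk k hk)
    _ ≤ 4 ^ L * (C * (a3 (L + m) (av f m) + a3 (L + m) (av g m) + a3 (L + m) (av h m))) :=
        mul_le_mul_of_nonneg_left (hC _ _ _ _) (by positivity)
    _ ≤ 4 ^ L * (C * ((1 / 4 : ℝ) ^ L * (∫ p, |f p| ^ 3) + (1 / 4 : ℝ) ^ L * (∫ p, |g p| ^ 3) +
          (1 / 4 : ℝ) ^ L * ∫ p, |h p| ^ 3)) := by
        have g1 := a3_le mf bf f3 L m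
        have g2 := a3_le mg bg g3 L m
        have g3' := a3_le mh bh h3 L m
        refine mul_le_mul_of_nonneg_left (mul_le_mul_of_nonneg_left ?_ hC0) (by positivity)
        linarith
    _ = (4 * (1 / 4)) ^ L * (C * ((∫ p, |f p| ^ 3) + (∫ p, |g p| ^ 3) + ∫ p, |h p| ^ 3)) := by
        rw [mul_pow]; ring
    _ = _ := by norm_num

theorem opt {X C a b c : ℝ} (hC : 0 ≤ C) (ha : 0 ≤ a) (hb : 0 ≤ b) (hc : 0 ≤ c)
    (h : ∀ t1 t2 t3 : ℝ, 0 < t1 → 0 < t2 → 0 < t3 → t1 * t2 * t3 = 1 →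
      X ≤ C * ((t1 * a) ^ 3 + (t2 * b) ^ 3 + (t3 * c) ^ 3)) :
    X ≤ 3 * C * (a * b * c) := by
  have key : ∀ e : ℝ, 0 < e → X ≤ 3 * C * ((a + e) * (b + e) * (c + e)) := by
    intro e he
    have pa : 0 < a + e := by linarith
    have pb : 0 < b + e := by linarith
    have pc : 0 < c + e := by linarith
    set P := (a + e) * (b + e) * (c + e) with hP
    have pP : 0 < P := by positivity
    obtain ⟨r, hr, hr3⟩ : ∃ r : ℝ, 0 < r ∧ r ^ 3 = P := by
      refine ⟨P ^ ((1:ℝ) / 3), by positivity, ?_⟩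
      rw [← Real.rpow_natCast, ← Real.rpow_mul pP.le]
      norm_num
    have h1 := h (r / (a + e)) (r / (b + e)) (r / (c + e)) (by positivity) (by positivity)
      (by positivity) (by
        rw [div_mul_div_comm, div_mul_div_comm, ← hP, ← hr3]
        field_simp)
    refine h1.trans ?_
    have q : ∀ u : ℝ, 0 ≤ u → (r / (u + e) * u) ^ 3 ≤ P := by
      intro u hu
      have pu : 0 < u + e := by linarith
      rw [← hr3]
      have : r / (u + e) * u ≤ r := by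
        rw [div_mul_eq_mul_div, div_le_iff₀ pu]
        nlinarith
      exact pow_le_pow_left₀ (by positivity) this 3
    have h2 : (r / (a + e) * a) ^ 3 + (r / (b + e) * b) ^ 3 + (r / (c + e) * c) ^ 3 ≤ 3 * P := by
      linarith [q a ha, q b hb, q c hc]
    calc C * ((r / (a + e) * a) ^ 3 + (r / (b + e) * b) ^ 3 + (r / (c + e) * c) ^ 3)
        ≤ C * (3 * P) := mul_le_mul_of_nonneg_left h2 hC
      _ = 3 * C * P := by ring
  have hcont : Tendsto (fun e : ℝ => 3 * C * ((a + e) * (b + e) * (c + e))) (𝓝[>] 0)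
      (𝓝 (3 * C * ((a + 0) * (b + 0) * (c + 0)))) := by
    refine Tendsto.mono_left ?_ nhdsWithin_le_nhds
    have : Continuous (fun e : ℝ => 3 * C * ((a + e) * (b + e) * (c + e))) := by fun_prop
    exact this.tendsto 0
  simp only [add_zero] at hcont
  refine ge_of_tendsto hcont ?_
  filter_upwards [self_mem_nhdsWithin] with e he
  exact key e he

theorem cube_norm {f : ℝ × ℝ → ℝ} (mf : Measurable f) (f3 : Integrable (fun p => |f p| ^ 3)) :
    (eLpNorm f 3 volume).toReal ^ 3 = ∫ p, |f p| ^ 3 := by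
  have e : ∀ p, ‖f p‖ ^ (3 : ENNReal).toReal = |f p| ^ 3 := by
    intro p
    rw [ENNReal.toReal_ofNat, Real.norm_eq_abs]
    exact_mod_cast Real.rpow_natCast |f p| 3
  have hm : MemLp f 3 volume := by
    rw [← integrable_norm_rpow_iff mf.aestronglyMeasurable (by norm_num) (by norm_num)]
    simp_rw [e]
    exact f3
  rw [hm.eLpNorm_eq_integral_rpow_norm (by norm_num) (by norm_num)]
  simp_rw [e]
  have h0 : 0 ≤ ∫ p, |f p| ^ 3 := integral_nonneg fun p => by positivity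
  rw [ENNReal.toReal_ofReal (by positivity), ENNReal.toReal_ofNat, ← Real.rpow_natCast,
    ← Real.rpow_mul h0]
  norm_num

theorem int_of {f : ℝ × ℝ → ℝ} (mf : Measurable f) (cf : HasCompactSupport f)
    (bf : ∃ M : ℝ, ∀ p, |f p| ≤ M) : Integrable f ∧ Integrable (fun p => |f p| ^ 3) := by
  obtain ⟨M, hM⟩ := bf
  have hfin : volume (tsupport f) ≠ ⊤ := cf.isCompact.measure_lt_top.ne
  constructor
  · rw [← integrableOn_iff_integrable_of_support_subset (subset_tsupport f)]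
    exact Measure.integrableOn_of_bounded (M := M) hfin mf.aestronglyMeasurable
      (ae_of_all _ fun p => hM p)
  · have hs : Function.support (fun p => |f p| ^ 3) ⊆ tsupport f := by
      refine subset_trans ?_ (subset_tsupport f)
      intro p hp
      rw [Function.mem_support] at hp ⊢
      intro h0
      apply hp
      simp [h0]
    rw [← integrableOn_iff_integrable_of_support_subset hs]
    refine Measure.integrableOn_of_bounded (M := M ^ 3) hfin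
      (mf.abs.pow_const 3).aestronglyMeasurable (ae_of_all _ fun p => ?_)
    rw [Real.norm_eq_abs, abs_of_nonneg (by positivity)]
    exact pow_le_pow_left₀ (abs_nonneg _) (hM p) 3

theorem red (hFS : FSflat) :
    ∃ C : ℝ, ∀ (S : Finset ℤ) (ε : ℤ → ℝ), (∀ k, |ε k| ≤ 1) →
      ∀ f g h : ℝ × ℝ → ℝ,
        Measurable f → Measurable g → Measurable h →
        HasCompactSupport f → HasCompactSupport g → HasCompactSupport h →
        (∃ M : ℝ, ∀ p, |f p| ≤ M) → (∃ M : ℝ, ∀ p, |g p| ≤ M) → (∃ M : ℝ, ∀ p, |h p| ≤ M) →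
        |∑ k ∈ S, (2:ℝ) ^ (-k) * ε k *
            ∑' ab : ℕ × ℕ, ∫ x : ℝ, ∫ y : ℝ, ∫ z : ℝ,
              f (x, y) * g (y, z) * h (z, x) *
              (Set.indicator (Set.Ico ((2:ℝ) ^ k * (ab.1 : ℝ))
                  ((2:ℝ) ^ k * (ab.1 : ℝ) + (2:ℝ) ^ (k - 1))) (fun _ => (1:ℝ)) x
                - Set.indicator (Set.Ico ((2:ℝ) ^ k * (ab.1 : ℝ) + (2:ℝ) ^ (k - 1))
                  ((2:ℝ) ^ k * ((ab.1 : ℝ) + 1))) (fun _ => (1:ℝ)) x) *
              (Set.indicator (Set.Ico ((2:ℝ) ^ k * (ab.2 : ℝ))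
                  ((2:ℝ) ^ k * (ab.2 : ℝ) + (2:ℝ) ^ (k - 1))) (fun _ => (1:ℝ)) y
                - Set.indicator (Set.Ico ((2:ℝ) ^ k * (ab.2 : ℝ) + (2:ℝ) ^ (k - 1))
                  ((2:ℝ) ^ k * ((ab.2 : ℝ) + 1))) (fun _ => (1:ℝ)) y) *
              (Set.indicator (Set.Ico ((2:ℝ) ^ k * ((ab.1 ^^^ ab.2 : ℕ) : ℝ))
                  ((2:ℝ) ^ k * ((ab.1 ^^^ ab.2 : ℕ) : ℝ) + (2:ℝ) ^ (k - 1))) (fun _ => (1:ℝ)) z
                - Set.indicator (Set.Ico ((2:ℝ) ^ k * ((ab.1 ^^^ ab.2 : ℕ) : ℝ) + (2:ℝ) ^ (k - 1))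
                  ((2:ℝ) ^ k * (((ab.1 ^^^ ab.2 : ℕ) : ℝ) + 1))) (fun _ => (1:ℝ)) z)|
          ≤ C * (eLpNorm f 3 volume).toReal * (eLpNorm g 3 volume).toReal
              * (eLpNorm h 3 volume).toReal := by
  obtain ⟨C0, hC0⟩ := hFS
  have ha3 : ∀ n f, 0 ≤ a3 n f := by
    intro n f; unfold a3; positivity
  obtain ⟨C, hCn, hC⟩ : ∃ C : ℝ, 0 ≤ C ∧ ∀ (n : ℕ) (f g h : ℕ → ℕ → ℝ),
      ∑ s ∈ Finset.range n, |Lam n s f g h| ≤ C * (a3 n f + a3 n g + a3 n h) := by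
    refine ⟨max C0 0, le_max_right _ _, fun n f g h => (hC0 n f g h).trans ?_⟩
    have := ha3 n f
    have := ha3 n g
    have := ha3 n h
    exact mul_le_mul_of_nonneg_right (le_max_left _ _) (by linarith)
  refine ⟨3 * C, ?_⟩
  intro S ε hε f g h mf mg mh cf cg ch bf bg bh
  have if1 := int_of mf cf bf
  have ig1 := int_of mg cg bg
  have ih1 := int_of mh ch bh
  obtain ⟨Bf, hBf⟩ := bf
  obtain ⟨Bg, hBg⟩ := bg
  obtain ⟨Bh, hBh⟩ := bh
  -- the box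
  obtain ⟨R, hR⟩ : ∃ R : ℝ, ∀ p, f p ≠ 0 → ‖p‖ ≤ R := by
    obtain ⟨R, hR⟩ := cf.isCompact.isBounded.exists_norm_le
    exact ⟨R, fun p hp => hR p (subset_tsupport f hp)⟩
  obtain ⟨L, hL1, hL2⟩ : ∃ L : ℕ, R < (2:ℝ) ^ L ∧ ∀ k ∈ S, k ≤ (L:ℤ) := by
    obtain ⟨N, hN⟩ := exists_nat_gt R
    refine ⟨N + ∑ k ∈ S, k.natAbs, ?_, ?_⟩
    · have h1 : ((N + ∑ k ∈ S, k.natAbs : ℕ) : ℝ) < 2 ^ (N + ∑ k ∈ S, k.natAbs) := by
        exact_mod_cast Nat.lt_two_pow_self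
      have h2 : (N:ℝ) ≤ ((N + ∑ k ∈ S, k.natAbs : ℕ) : ℝ) := by
        push_cast
        have : (0:ℝ) ≤ ∑ k ∈ S, (k.natAbs : ℝ) := by positivity
        linarith
      linarith
    · intro k hk
      have h1 : k.natAbs ≤ ∑ k ∈ S, k.natAbs :=
        Finset.single_le_sum (f := fun k : ℤ => k.natAbs) (fun _ _ => Nat.zero_le _) hk
      omega
  have fx : ∀ x y, (2:ℝ) ^ L ≤ x → f (x, y) = 0 := by
    intro x y hx
    by_contra h0
    have h1 := hR _ h0
    have h2 : |x| ≤ ‖(x, y)‖ := norm_fst_le (x, y)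
    have h3 := le_abs_self x
    linarith
  have fy : ∀ x y, (2:ℝ) ^ L ≤ y → f (x, y) = 0 := by
    intro x y hx
    by_contra h0
    have h1 := hR _ h0
    have h2 : |y| ≤ ‖(x, y)‖ := norm_snd_le (x, y)
    have h3 := le_abs_self y
    linarith
  show |∑ k ∈ S, (2:ℝ) ^ (-k) * ε k * ∑' ab : ℕ × ℕ, T k ab.1 ab.2 (ab.1 ^^^ ab.2) f g h| ≤ _
  rw [mul_assoc (3 * C), mul_assoc (3 * C)]
  refine opt hCn ENNReal.toReal_nonneg ENNReal.toReal_nonneg ENNReal.toReal_nonneg ?_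
  intro t1 t2 t3 h1 h2 h3 h123
  have eT : ∀ (k : ℤ) (a b c : ℕ), T k a b c f g h =
      T k a b c (fun p => t1 * f p) (fun p => t2 * g p) (fun p => t3 * h p) := by
    intro k a b c
    unfold T
    congr 1; ext x
    congr 1; ext y
    congr 1; ext z
    linear_combination (-(f (x, y) * g (y, z) * h (z, x) * hh k a x * hh k b y * hh k c z)) * h123
  simp_rw [eT]
  have B1 : ∀ (t : ℝ) (u : ℝ × ℝ → ℝ) (B : ℝ), 0 < t → (∀ p, |u p| ≤ B) →
      ∀ p, |t * u p| ≤ t * B := by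
    intro t u B ht hu p
    rw [abs_mul, abs_of_pos ht]
    exact mul_le_mul_of_nonneg_left (hu p) ht.le
  have I3 : ∀ (t : ℝ) (u : ℝ × ℝ → ℝ), 0 < t → (fun p => |t * u p| ^ 3) =
      fun p => t ^ 3 * |u p| ^ 3 := by
    intro t u ht
    ext p
    rw [abs_mul, abs_of_pos ht, mul_pow]
  have := bound3 hCn hC S ε hε (B := t1 * Bf ⊔ (t2 * Bg ⊔ t3 * Bh))
    (f := fun p => t1 * f p) (g := fun p => t2 * g p) (h := fun p => t3 * h p)
    (mf.const_mul t1) (mg.const_mul t2) (mh.const_mul t3)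
    (fun p => (B1 t1 f Bf h1 hBf p).trans le_sup_left)
    (fun p => (B1 t2 g Bg h2 hBg p).trans (le_sup_left.trans le_sup_right))
    (fun p => (B1 t3 h Bh h3 hBh p).trans (le_sup_right.trans le_sup_right))
    (if1.1.const_mul t1) (ig1.1.const_mul t2) (ih1.1.const_mul t3)
    (by rw [I3 t1 f h1]; exact if1.2.const_mul _) (by rw [I3 t2 g h2]; exact ig1.2.const_mul _)
    (by rw [I3 t3 h h3]; exact ih1.2.const_mul _) L hL2
    (fun x y hx => by simp [fx x y hx]) (fun x y hx => by simp [fy x y hx])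
  refine this.trans (le_of_eq ?_)
  rw [I3 t1 f h1, I3 t2 g h2, I3 t3 h h3, integral_const_mul, integral_const_mul,
    integral_const_mul, ← cube_norm mf if1.2, ← cube_norm mg ig1.2, ← cube_norm mh ih1.2]
  ring

end Pool.Agent.Helper321.TH
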