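import Mathlib

set_option autoImplicit false

open MeasureTheory Filter Topology

namespace Pool.Agent.Helper321.TH

noncomputable def sg (M i : ℕ) : ℝ := if i < M / 2 then 1 else -1

noncomputable def Lam (n s : ℕ) (f g h : ℕ → ℕ → ℝ) : ℝ :=
  (1 / 4 : ℝ) ^ s * (1 / 8 : ℝ) ^ (n - s) *
    ∑ p ∈ Finset.range (2 ^ s), ∑ q ∈ Finset.range (2 ^ s),
      ∑ i ∈ Finset.range (2 ^ (n - s)), ∑ j ∈ Finset.range (2 ^ (n - s)),
        ∑ k ∈ Finset.range (2 ^ (n - s)),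
          sg (2 ^ (n - s)) i * sg (2 ^ (n - s)) j * sg (2 ^ (n - s)) k *
            f (p * 2 ^ (n - s) + i) (q * 2 ^ (n - s) + j) *
            g (q * 2 ^ (n - s) + j) ((p ^^^ q) * 2 ^ (n - s) + k) *
            h ((p ^^^ q) * 2 ^ (n - s) + k) (p * 2 ^ (n - s) + i)

noncomputable def a3 (n : ℕ) (f : ℕ → ℕ → ℝ) : ℝ :=
  (1 / 4 : ℝ) ^ n * ∑ i ∈ Finset.range (2 ^ n), ∑ j ∈ Finset.range (2 ^ n), |f i j| ^ 3

def FSflat : Prop := ∃ C : ℝ, ∀ (n : ℕ) (f g h : ℕ → ℕ → ℝ),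
  ∑ s ∈ Finset.range n, |Lam n s f g h| ≤ C * (a3 n f + a3 n g + a3 n h)

noncomputable def hh (k : ℤ) (a : ℕ) (x : ℝ) : ℝ :=
  Set.indicator (Set.Ico ((2:ℝ) ^ k * (a : ℝ)) ((2:ℝ) ^ k * (a : ℝ) + (2:ℝ) ^ (k - 1)))
      (fun _ => (1:ℝ)) x
    - Set.indicator (Set.Ico ((2:ℝ) ^ k * (a : ℝ) + (2:ℝ) ^ (k - 1)) ((2:ℝ) ^ k * ((a : ℝ) + 1)))
      (fun _ => (1:ℝ)) x

noncomputable def T (k : ℤ) (a b c : ℕ) (f g h : ℝ × ℝ → ℝ) : ℝ :=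
  ∫ x : ℝ, ∫ y : ℝ, ∫ z : ℝ, f (x, y) * g (y, z) * h (z, x) * hh k a x * hh k b y * hh k c z

noncomputable def stp (m : ℕ) (F : ℕ → ℕ → ℝ) (p : ℝ × ℝ) : ℝ :=
  F ⌊(2:ℝ) ^ m * p.1⌋₊ ⌊(2:ℝ) ^ m * p.2⌋₊

theorem ico_iff {m : ℕ} {x : ℝ} (hx : 0 ≤ x) (A B : ℕ) :
    x ∈ Set.Ico ((A:ℝ) / 2 ^ m) ((B:ℝ) / 2 ^ m) ↔
      A ≤ ⌊(2:ℝ) ^ m * x⌋₊ ∧ ⌊(2:ℝ) ^ m * x⌋₊ < B := by
  have h2 : (0:ℝ) < 2 ^ m := by positivity
  have h3 : 0 ≤ (2:ℝ) ^ m * x := by positivity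
  rw [Set.mem_Ico, Nat.le_floor_iff h3, Nat.floor_lt h3, div_le_iff₀ h2, lt_div_iff₀ h2,
    mul_comm x]

theorem ico_neg {m : ℕ} {x : ℝ} (hx : x < 0) (A : ℕ) (B : ℝ) :
    x ∉ Set.Ico ((A:ℝ) / 2 ^ m) B := by
  intro h
  have h1 : (0:ℝ) ≤ (A:ℝ) / 2 ^ m := by positivity
  linarith [h.1]

theorem hh_eq {m : ℕ} {k : ℤ} {M : ℕ} (hM : (M:ℝ) = 2 ^ m * (2:ℝ) ^ k) (hM2 : M = 2 * (M / 2))
    (a : ℕ) (x : ℝ) :
    hh k a x = Set.indicator (Set.Ico (((a * M : ℕ):ℝ) / 2 ^ m) (((a * M + M / 2 : ℕ):ℝ) / 2 ^ m))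
      (fun _ => (1:ℝ)) x
    - Set.indicator (Set.Ico (((a * M + M / 2 : ℕ):ℝ) / 2 ^ m) (((a * M + M : ℕ):ℝ) / 2 ^ m))
      (fun _ => (1:ℝ)) x := by
  have h2 : (0:ℝ) < 2 ^ m := by positivity
  have hh2 : ((M / 2 : ℕ) : ℝ) = 2 ^ m * (2:ℝ) ^ (k - 1) := by
    have : (M:ℝ) = 2 * ((M / 2 : ℕ):ℝ) := by exact_mod_cast hM2
    rw [zpow_sub_one₀ (by norm_num : (2:ℝ) ≠ 0)]
    rw [hM] at this
    linarith
  have e1 : (2:ℝ) ^ k * (a : ℝ) = ((a * M : ℕ):ℝ) / 2 ^ m := by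
    rw [eq_div_iff h2.ne']
    push_cast
    rw [hM]; ring
  have e2 : (2:ℝ) ^ k * (a : ℝ) + (2:ℝ) ^ (k - 1) = ((a * M + M / 2 : ℕ):ℝ) / 2 ^ m := by
    rw [eq_div_iff h2.ne', Nat.cast_add, hh2]
    push_cast
    rw [hM]; ring
  have e3 : (2:ℝ) ^ k * ((a : ℝ) + 1) = ((a * M + M : ℕ):ℝ) / 2 ^ m := by
    rw [eq_div_iff h2.ne']
    push_cast
    rw [hM]; ring
  unfold hh
  rw [e2, e1, e3]

theorem hh_cell {m : ℕ} {k : ℤ} {M : ℕ} (hM : (M:ℝ) = 2 ^ m * (2:ℝ) ^ k) (hM2 : M = 2 * (M / 2))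
    (a : ℕ) (Φ : ℕ → ℝ) (x : ℝ) :
    Φ ⌊(2:ℝ) ^ m * x⌋₊ * hh k a x = ∑ i ∈ Finset.range M,
      Set.indicator (Set.Ico (((a * M + i : ℕ):ℝ) / 2 ^ m) (((a * M + i + 1 : ℕ):ℝ) / 2 ^ m))
        (fun _ => Φ (a * M + i) * sg M i) x := by
  rw [hh_eq hM hM2]
  by_cases hx : 0 ≤ x
  · set t := ⌊(2:ℝ) ^ m * x⌋₊ with ht
    have key : ∀ i : ℕ, Set.indicator (Set.Ico (((a * M + i : ℕ):ℝ) / 2 ^ m)
        (((a * M + i + 1 : ℕ):ℝ) / 2 ^ m)) (fun _ => Φ (a * M + i) * sg M i) x =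
        if t = a * M + i then Φ t * sg M i else 0 := by
      intro i
      rw [Set.indicator_apply]
      simp only [ico_iff hx, ← ht]
      by_cases h : t = a * M + i
      · rw [if_pos h, if_pos (by omega), h]
      · rw [if_neg h, if_neg (by omega)]
    rw [Finset.sum_congr rfl (fun i _ => key i)]
    simp only [Set.indicator_apply, ico_iff hx, ← ht]
    by_cases h1 : a * M ≤ t ∧ t < a * M + M
    · have h2 : t - a * M ∈ Finset.range M := by rw [Finset.mem_range]; omega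
      have e0 : t = a * M + (t - a * M) := by omega
      rw [Finset.sum_eq_single_of_mem _ h2 (by
        intro b _ hb
        rw [if_neg (by omega)]), if_pos e0]
      unfold sg
      by_cases h3 : t < a * M + M / 2
      · have e1 : a * M ≤ t ∧ t < a * M + M / 2 := ⟨h1.1, h3⟩
        have e2 : ¬ (a * M + M / 2 ≤ t ∧ t < a * M + M) := by omega
        have e3 : t - a * M < M / 2 := by omega
        rw [if_pos e1, if_neg e2, if_pos e3]; ring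
      · have e1 : ¬ (a * M ≤ t ∧ t < a * M + M / 2) := by omega
        have e2 : a * M + M / 2 ≤ t ∧ t < a * M + M := ⟨by omega, h1.2⟩
        have e3 : ¬ t - a * M < M / 2 := by omega
        rw [if_neg e1, if_pos e2, if_neg e3]; ring
    · rw [if_neg (by omega), if_neg (by omega), Finset.sum_eq_zero]
      · ring
      · intro i hi
        rw [Finset.mem_range] at hi
        rw [if_neg (by omega)]
  · push Not at hx
    rw [Set.indicator_of_notMem (ico_neg hx _ _), Set.indicator_of_notMem (ico_neg hx _ _),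
      Finset.sum_eq_zero]
    · ring
    · intro i _
      rw [Set.indicator_of_notMem (ico_neg hx _ _)]

theorem int_hh {m : ℕ} {k : ℤ} {M : ℕ} (hM : (M:ℝ) = 2 ^ m * (2:ℝ) ^ k) (hM2 : M = 2 * (M / 2))
    (a : ℕ) (Φ : ℕ → ℝ) :
    ∫ x : ℝ, Φ ⌊(2:ℝ) ^ m * x⌋₊ * hh k a x =
      (1 / 2 : ℝ) ^ m * ∑ i ∈ Finset.range M, Φ (a * M + i) * sg M i := by
  have h2 : (0:ℝ) < 2 ^ m := by positivity
  simp_rw [hh_cell hM hM2 a Φ]
  rw [integral_finsetSum]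
  · rw [Finset.mul_sum]
    refine Finset.sum_congr rfl fun i _ => ?_
    rw [integral_indicator measurableSet_Ico, setIntegral_const, smul_eq_mul, Measure.real,
      Real.volume_Ico]
    have : ((a * M + i + 1 : ℕ):ℝ) / 2 ^ m - ((a * M + i : ℕ):ℝ) / 2 ^ m = (1 / 2 : ℝ) ^ m := by
      push_cast
      rw [one_div, inv_pow, ← sub_div]
      rw [add_sub_cancel_left, one_div]
    rw [this, ENNReal.toReal_ofReal (by positivity)]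
  · intro i _
    refine (integrable_indicator_iff measurableSet_Ico).2 ?_
    exact integrableOn_const (by rw [Real.volume_Ico]; exact ENNReal.ofReal_ne_top)

theorem T_step {m : ℕ} {k : ℤ} {M : ℕ} (hM : (M:ℝ) = 2 ^ m * (2:ℝ) ^ k) (hM2 : M = 2 * (M / 2))
    (a b c : ℕ) (F G H : ℕ → ℕ → ℝ) :
    T k a b c (stp m F) (stp m G) (stp m H) =
      (1 / 8 : ℝ) ^ m * ∑ i ∈ Finset.range M, ∑ j ∈ Finset.range M, ∑ l ∈ Finset.range M,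
        sg M i * sg M j * sg M l * F (a * M + i) (b * M + j) * G (b * M + j) (c * M + l) *
          H (c * M + l) (a * M + i) := by
  have h1 : ∀ x y : ℝ, ∫ z : ℝ, stp m F (x, y) * stp m G (y, z) * stp m H (z, x) * hh k a x *
      hh k b y * hh k c z = ((F ⌊(2:ℝ) ^ m * x⌋₊ ⌊(2:ℝ) ^ m * y⌋₊ * ((1 / 2 : ℝ) ^ m *
        ∑ l ∈ Finset.range M, (G ⌊(2:ℝ) ^ m * y⌋₊ (c * M + l) * H (c * M + l) ⌊(2:ℝ) ^ m * x⌋₊) *
          sg M l)) * hh k b y) * hh k a x := by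
    intro x y
    have e : (fun z : ℝ => stp m F (x, y) * stp m G (y, z) * stp m H (z, x) * hh k a x *
      hh k b y * hh k c z) = fun z => (F ⌊(2:ℝ) ^ m * x⌋₊ ⌊(2:ℝ) ^ m * y⌋₊ * hh k a x * hh k b y) *
        ((G ⌊(2:ℝ) ^ m * y⌋₊ ⌊(2:ℝ) ^ m * z⌋₊ * H ⌊(2:ℝ) ^ m * z⌋₊ ⌊(2:ℝ) ^ m * x⌋₊) *
          hh k c z) := by
      ext z; unfold stp; ring
    rw [e, integral_const_mul, int_hh hM hM2 c (fun t => G ⌊(2:ℝ) ^ m * y⌋₊ t *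
      H t ⌊(2:ℝ) ^ m * x⌋₊)]
    ring
  have h2 : ∀ x : ℝ, ∫ y : ℝ, ∫ z : ℝ, stp m F (x, y) * stp m G (y, z) * stp m H (z, x) *
      hh k a x * hh k b y * hh k c z = ((1 / 2 : ℝ) ^ m * ∑ j ∈ Finset.range M,
        (F ⌊(2:ℝ) ^ m * x⌋₊ (b * M + j) * ((1 / 2 : ℝ) ^ m *
        ∑ l ∈ Finset.range M, (G (b * M + j) (c * M + l) * H (c * M + l) ⌊(2:ℝ) ^ m * x⌋₊) *
          sg M l)) * sg M j) * hh k a x := by
    intro x
    simp_rw [h1 x]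
    rw [integral_mul_const, int_hh hM hM2 b (fun t => F ⌊(2:ℝ) ^ m * x⌋₊ t * ((1 / 2 : ℝ) ^ m *
        ∑ l ∈ Finset.range M, (G t (c * M + l) * H (c * M + l) ⌊(2:ℝ) ^ m * x⌋₊) * sg M l))]
  unfold T
  simp_rw [h2]
  rw [int_hh hM hM2 a (fun t => (1 / 2 : ℝ) ^ m * ∑ j ∈ Finset.range M,
        (F t (b * M + j) * ((1 / 2 : ℝ) ^ m *
        ∑ l ∈ Finset.range M, (G (b * M + j) (c * M + l) * H (c * M + l) t) *
          sg M l)) * sg M j)]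
  have e8 : (1 / 8 : ℝ) ^ m = (1 / 2 : ℝ) ^ m * ((1 / 2 : ℝ) ^ m * (1 / 2 : ℝ) ^ m) := by
    rw [← mul_pow, ← mul_pow]; norm_num
  rw [e8]
  simp only [Finset.mul_sum, Finset.sum_mul]
  refine Finset.sum_congr rfl fun i _ => Finset.sum_congr rfl fun j _ =>
    Finset.sum_congr rfl fun l _ => ?_
  ring

end Pool.Agent.Helper321.TH
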